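import Pool.Agent.MP_b9ac25_al.Proof

namespace Pool.Agent.Results.MP_b9ac25_al.P1ImpliesP2

/-- (P1) implies (P2), with the same free group (of any rank). Mathlib numbers the lower central
series from 0, so `lowerCentralSeries n` is `C^(n+1)`. -/
theorem result {Γ F : Type*} [Group Γ] [Group F] [IsFreeGroup F]
    (h : ∀ n : ℕ, Nonempty (Γ ⧸ (⊤ : Subgroup Γ).lowerCentralSeries n ≃*
      F ⧸ (⊤ : Subgroup F).lowerCentralSeries n)) :
    ∃ φ : F →* Γ, ∀ n : ℕ,
      ∃ e : F ⧸ (⊤ : Subgroup F).lowerCentralSeries n ≃* Γ ⧸ (⊤ : Subgroup Γ).lowerCentralSeries n,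
        ∀ x : F, e (QuotientGroup.mk x) = QuotientGroup.mk (φ x) :=
  Pool.Agent.MP_b9ac25_al.main h

end Pool.Agent.Results.MP_b9ac25_al.P1ImpliesP2
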